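import Mathlib

/-!
# Project LV (MP_a499ba_nt), block C4: the end of the series
-/

set_option autoImplicit false

namespace Pool.Agent.Helper19.LV

open Finset MeasureTheory Filter Topology

/-- one term far from `exp L` -/
theorem end_term {L : ℝ} (hL : 32 ≤ L) {m : ℝ} (hm : Real.exp (2 * L) ≤ m) :
    m ^ (-(1 / 2 : ℝ)) * (4 * Real.exp (-((L - Real.log m) ^ 2 / 4))) ≤ 1 / 4 * (1 / m ^ 2) := by
  have hm0 : 0 < m := (Real.exp_pos _).trans_le hm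
  have hlog : 2 * L ≤ Real.log m := (Real.le_log_iff_exp_le hm0).2 hm
  have hm16 : (16 : ℝ) ≤ m := by
    refine le_trans ?_ hm
    have := Real.add_one_le_exp (2 * L)
    linarith
  have h1 : Real.exp (-((L - Real.log m) ^ 2 / 4)) ≤ m ^ (-(4 : ℝ)) := by
    rw [Real.rpow_def_of_pos hm0]
    refine Real.exp_le_exp.2 ?_
    nlinarith
  have h2 : m ^ (-(1 / 2 : ℝ)) ≤ 1 := Real.rpow_le_one_of_one_le_of_nonpos (by linarith) (by norm_num)
  have h3 : m ^ (-(4 : ℝ)) = 1 / m ^ 2 * (1 / m ^ 2) := by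
    rw [Real.rpow_neg hm0.le]
    rw [show ((4 : ℝ)) = ((4 : ℕ) : ℝ) by norm_num, Real.rpow_natCast]
    field_simp
  have h4 : 1 / m ^ 2 ≤ 1 / 16 := by
    rw [div_le_div_iff₀ (by positivity) (by norm_num)]
    nlinarith
  have h5 : 0 ≤ 1 / m ^ 2 := by positivity
  calc m ^ (-(1 / 2 : ℝ)) * (4 * Real.exp (-((L - Real.log m) ^ 2 / 4))) ≤ 1 * (4 * (1 / m ^ 2 * (1 / m ^ 2))) := by
        rw [← h3]
        gcongr
    _ ≤ 1 * (4 * (1 / 16 * (1 / m ^ 2))) := by gcongr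
    _ = 1 / 4 * (1 / m ^ 2) := by ring

/-- C4: the end of the series -/
theorem series_end : ∃ L0 : ℝ, ∀ L : ℝ, L0 ≤ L → ∀ N : ℕ, Real.exp (2 * L) ≤ N →
    Summable (fun n : ℕ => ((n + 1 : ℕ) : ℝ) ^ (-(1 / 2 : ℝ)) * Real.exp (-((L - Real.log (n + 1 : ℕ)) ^ 2 / 4))) ∧
    ∑' n : ℕ, ((n + N + 1 : ℕ) : ℝ) ^ (-(1 / 2 : ℝ)) * (4 * Real.exp (-((L - Real.log (n + N + 1 : ℕ)) ^ 2 / 4))) ≤ 1 := by
  refine ⟨32, fun L hL N hN => ?_⟩
  have hN1 : (1 : ℝ) ≤ N := by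
    refine le_trans ?_ hN
    have := Real.add_one_le_exp (2 * L)
    linarith
  have hz : Summable fun n : ℕ => 1 / ((n : ℝ)) ^ 2 := Real.summable_one_div_nat_pow.2 (by norm_num)
  have hle : ∀ n : ℕ, ((n + N + 1 : ℕ) : ℝ) ^ (-(1 / 2 : ℝ)) * (4 * Real.exp (-((L - Real.log (n + N + 1 : ℕ)) ^ 2 / 4))) ≤
      1 / 4 * (1 / ((n + 1 : ℕ) : ℝ) ^ 2) := by
    intro n
    have h1 : Real.exp (2 * L) ≤ ((n + N + 1 : ℕ) : ℝ) := by
      refine hN.trans ?_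
      exact_mod_cast (by omega : N ≤ n + N + 1)
    refine (end_term hL h1).trans ?_
    have h2 : ((n + 1 : ℕ) : ℝ) ≤ ((n + N + 1 : ℕ) : ℝ) := by exact_mod_cast (by omega : n + 1 ≤ n + N + 1)
    have h3 : (0 : ℝ) < ((n + 1 : ℕ) : ℝ) := by positivity
    gcongr
  have hz1 : Summable fun n : ℕ => 1 / 4 * (1 / ((n + 1 : ℕ) : ℝ) ^ 2) := ((summable_nat_add_iff 1).2 hz).mul_left _
  have hs : Summable fun n : ℕ => ((n + N + 1 : ℕ) : ℝ) ^ (-(1 / 2 : ℝ)) * (4 * Real.exp (-((L - Real.log (n + N + 1 : ℕ)) ^ 2 / 4))) :=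
    Summable.of_nonneg_of_le (fun n => by positivity) hle hz1
  refine ⟨?_, ?_⟩
  · have h4 : Summable fun n : ℕ => ((n + 1 : ℕ) : ℝ) ^ (-(1 / 2 : ℝ)) * (4 * Real.exp (-((L - Real.log (n + 1 : ℕ)) ^ 2 / 4))) := by
      refine (summable_nat_add_iff N).1 ?_
      exact hs
    refine (h4.mul_left (1 / 4)).congr fun n => ?_
    ring
  · refine (hs.tsum_le_tsum hle hz1).trans ?_
    rw [tsum_mul_left]
    have h5 : ∑' n : ℕ, 1 / ((n + 1 : ℕ) : ℝ) ^ 2 ≤ 4 := by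
      have h6 := hz.sum_add_tsum_nat_add 1
      rw [Finset.sum_range_one] at h6
      have h7 := hasSum_zeta_two.tsum_eq
      have h8 : ∑' n : ℕ, 1 / ((n + 1 : ℕ) : ℝ) ^ 2 = Real.pi ^ 2 / 6 := by
        rw [← h7, ← h6]
        simp
      rw [h8]
      have h9 := Real.pi_lt_four
      have h10 := Real.pi_pos
      nlinarith
    linarith

end Pool.Agent.Helper19.LV
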