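import Pool.Agent.Helper11.LV.QDefs
import Pool.Agent.Helper19.LV.C4

/-!
# Project LV (MP_a499ba_nt), block C2: the functional as a Dirichlet series
-/

set_option autoImplicit false

namespace Pool.Agent.Helper19.LV

open Finset MeasureTheory Filter Topology
open Pool.Agent.QT (mS FF gk bb)
open Pool.Agent.Helper11.LV (hh Hh TT)

/-! ### the kernel -/

theorem gk_one (y : ℝ) : gk 1 y = (Real.sqrt (2 * Real.pi))⁻¹ * Real.exp (-(y ^ 2 / 2)) := by
  unfold gk
  norm_num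

theorem gk_nonneg (y : ℝ) : 0 ≤ gk 1 y := by
  rw [gk_one]
  positivity

theorem gk_le (y : ℝ) : gk 1 y ≤ Real.exp (-(y ^ 2 / 2)) := by
  rw [gk_one]
  refine mul_le_of_le_one_left (Real.exp_pos _).le ?_
  refine inv_le_one_of_one_le₀ ?_
  rw [Real.one_le_sqrt]
  have := Real.pi_gt_three
  linarith

theorem gk_cont : Continuous (gk 1) := by
  have : gk 1 = fun y => (Real.sqrt (2 * Real.pi))⁻¹ * Real.exp (-(y ^ 2 / 2)) := funext gk_one
  rw [this]
  fun_prop

/-- the kernel of `hh` -/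
noncomputable def kr (v t : ℝ) : ℝ := Real.exp (-(t / 2)) * gk 1 (v - t)

theorem kr_nonneg (v t : ℝ) : 0 ≤ kr v t := mul_nonneg (Real.exp_pos _).le (gk_nonneg _)

theorem kr_cont (v : ℝ) : Continuous (kr v) := by
  unfold kr
  exact (by fun_prop : Continuous fun t : ℝ => Real.exp (-(t / 2))).mul (gk_cont.comp (by fun_prop))

theorem kr_le (v t : ℝ) : kr v t ≤ Real.exp (1 / 4 - v / 2) * Real.exp (-(1 / 4) * (v - t) ^ 2) := by
  unfold kr
  refine (mul_le_mul_of_nonneg_left (gk_le _) (Real.exp_pos _).le).trans ?_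
  rw [← Real.exp_add, ← Real.exp_add]
  refine Real.exp_le_exp.2 ?_
  nlinarith [sq_nonneg (v - t - 1)]

theorem gau_int (v : ℝ) : Integrable fun t : ℝ => Real.exp (-(1 / 4) * (v - t) ^ 2) :=
  (integrable_exp_neg_mul_sq (b := 1 / 4) (by norm_num)).comp_sub_left v

theorem gau_val (v : ℝ) : ∫ t : ℝ, Real.exp (-(1 / 4) * (v - t) ^ 2) ≤ 4 := by
  have h1 := integral_sub_left_eq_self (fun t : ℝ => Real.exp (-(1 / 4) * t ^ 2)) volume v
  rw [h1, integral_gaussian]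
  have h2 := Real.pi_lt_four
  calc Real.sqrt (Real.pi / (1 / 4)) ≤ Real.sqrt (4 ^ 2) := Real.sqrt_le_sqrt (by linarith)
    _ = 4 := Real.sqrt_sq (by norm_num)

theorem kr_int (v : ℝ) : Integrable (kr v) := by
  refine ((gau_int v).const_mul (Real.exp (1 / 4 - v / 2))).mono' (kr_cont v).aestronglyMeasurable ?_
  refine Filter.Eventually.of_forall fun t => ?_
  rw [Real.norm_eq_abs, abs_of_nonneg (kr_nonneg v t)]
  exact kr_le v t

theorem hh_eq (v : ℝ) : hh v = ∫ t in Set.Ioi (0 : ℝ), kr v t := rfl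

theorem hh_nonneg (v : ℝ) : 0 ≤ hh v := by
  rw [hh_eq]
  exact integral_nonneg fun t => kr_nonneg v t

theorem hh_le (v : ℝ) : hh v ≤ 4 * Real.exp (1 / 4 - v / 2) := by
  rw [hh_eq]
  calc ∫ t in Set.Ioi (0 : ℝ), kr v t ≤ ∫ t : ℝ, kr v t :=
        setIntegral_le_integral (kr_int v) (Filter.Eventually.of_forall fun t => kr_nonneg v t)
    _ ≤ ∫ t : ℝ, Real.exp (1 / 4 - v / 2) * Real.exp (-(1 / 4) * (v - t) ^ 2) :=
        integral_mono (kr_int v) ((gau_int v).const_mul _) fun t => kr_le v t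
    _ = Real.exp (1 / 4 - v / 2) * ∫ t : ℝ, Real.exp (-(1 / 4) * (v - t) ^ 2) := integral_const_mul _ _
    _ ≤ Real.exp (1 / 4 - v / 2) * 4 := mul_le_mul_of_nonneg_left (gau_val v) (Real.exp_pos _).le
    _ = _ := mul_comm _ _

theorem hh_neg {v : ℝ} (hv : v ≤ 0) : hh v ≤ 2 * Real.exp (-(v ^ 2 / 2)) := by
  rw [hh_eq]
  have h1 : ∀ t ∈ Set.Ioi (0 : ℝ), kr v t ≤ Real.exp (-(v ^ 2 / 2)) * Real.exp (-(1 / 2) * t) := by
    intro t ht
    have ht0 : 0 < t := ht
    unfold kr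
    refine (mul_le_mul_of_nonneg_left (gk_le _) (Real.exp_pos _).le).trans ?_
    rw [← Real.exp_add, ← Real.exp_add]
    refine Real.exp_le_exp.2 ?_
    nlinarith
  have h2 : IntegrableOn (fun t : ℝ => Real.exp (-(1 / 2) * t)) (Set.Ioi 0) := integrableOn_exp_mul_Ioi (by norm_num) 0
  calc ∫ t in Set.Ioi (0 : ℝ), kr v t ≤ ∫ t in Set.Ioi (0 : ℝ), Real.exp (-(v ^ 2 / 2)) * Real.exp (-(1 / 2) * t) :=
        setIntegral_mono_on (kr_int v).integrableOn (h2.const_mul _) measurableSet_Ioi h1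
    _ = Real.exp (-(v ^ 2 / 2)) * ∫ t in Set.Ioi (0 : ℝ), Real.exp (-(1 / 2) * t) := integral_const_mul _ _
    _ = 2 * Real.exp (-(v ^ 2 / 2)) := by
        rw [integral_exp_mul_Ioi (by norm_num)]
        norm_num
        ring

theorem hh_meas : StronglyMeasurable hh := by
  have h1 : Continuous fun p : ℝ × ℝ => Real.exp (-(p.2 / 2)) * gk 1 (p.1 - p.2) :=
    (by fun_prop : Continuous fun p : ℝ × ℝ => Real.exp (-(p.2 / 2))).mul (gk_cont.comp (by fun_prop))
  exact h1.stronglyMeasurable.integral_prod_right' (ν := volume.restrict (Set.Ioi (0 : ℝ)))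

/-! ### the weight with a real exponent -/

/-- the integrand with the exponent `x` -/
noncomputable def ww (x v : ℝ) : ℝ := hh v * Real.exp (-(x * v))

theorem ww_nonneg (x v : ℝ) : 0 ≤ ww x v := mul_nonneg (hh_nonneg v) (Real.exp_pos _).le

theorem ww_meas (x : ℝ) : StronglyMeasurable (ww x) :=
  hh_meas.mul (by fun_prop : Continuous fun v : ℝ => Real.exp (-(x * v))).stronglyMeasurable

theorem ww_neg {x v : ℝ} (hx : 0 ≤ x) (hx1 : x ≤ 1 / 4) (hv : v ≤ 0) : ww x v ≤ 4 * Real.exp (-(3 / 8) * v ^ 2) := by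
  unfold ww
  have h0 : Real.exp (1 / 8) ≤ 2 := by
    have h := Real.exp_bound_div_one_sub_of_interval (x := 1 / 8) (by norm_num) (by norm_num)
    refine h.trans ?_
    norm_num
  calc hh v * Real.exp (-(x * v)) ≤ 2 * Real.exp (-(v ^ 2 / 2)) * Real.exp (-(x * v)) :=
        mul_le_mul_of_nonneg_right (hh_neg hv) (Real.exp_pos _).le
    _ = 2 * Real.exp (-(v ^ 2 / 2) + -(x * v)) := by rw [mul_assoc, ← Real.exp_add]
    _ ≤ 2 * Real.exp (1 / 8 + -(3 / 8) * v ^ 2) := by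
        refine mul_le_mul_of_nonneg_left (Real.exp_le_exp.2 ?_) (by norm_num)
        have h1 : -(x * v) ≤ -(1 / 4 * v) := by nlinarith
        nlinarith [sq_nonneg (v + 1)]
    _ = 2 * (Real.exp (1 / 8) * Real.exp (-(3 / 8) * v ^ 2)) := by rw [← Real.exp_add]
    _ ≤ 2 * (2 * Real.exp (-(3 / 8) * v ^ 2)) := by gcongr
    _ = _ := by ring

theorem ww_pos {x v : ℝ} (hx : 0 ≤ x) (hv : 0 ≤ v) : ww x v ≤ 4 * Real.exp (1 / 4) * Real.exp (-(1 / 2) * v) := by
  unfold ww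
  have h1 : Real.exp (-(x * v)) ≤ 1 := Real.exp_le_one_iff.2 (by nlinarith)
  calc hh v * Real.exp (-(x * v)) ≤ hh v * 1 := mul_le_mul_of_nonneg_left h1 (hh_nonneg v)
    _ ≤ 4 * Real.exp (1 / 4 - v / 2) := by rw [mul_one]; exact hh_le v
    _ = 4 * Real.exp (1 / 4) * Real.exp (-(1 / 2) * v) := by
        rw [mul_assoc, ← Real.exp_add]
        congr 2
        ring

theorem ww_int {x : ℝ} (hx : 0 ≤ x) (hx1 : x ≤ 1 / 4) : Integrable (ww x) := by
  have h1 : IntegrableOn (ww x) (Set.Iic 0) := by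
    refine ((integrable_exp_neg_mul_sq (b := 3 / 8) (by norm_num)).const_mul 4).integrableOn.mono' (ww_meas x).aestronglyMeasurable ?_
    refine (ae_restrict_mem measurableSet_Iic).mono fun v hv => ?_
    rw [Real.norm_eq_abs, abs_of_nonneg (ww_nonneg x v)]
    exact ww_neg hx hx1 hv
  have h2 : IntegrableOn (ww x) (Set.Ioi 0) := by
    refine ((integrableOn_exp_mul_Ioi (a := -(1 / 2)) (by norm_num) 0).const_mul (4 * Real.exp (1 / 4))).mono' (ww_meas x).aestronglyMeasurable ?_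
    refine (ae_restrict_mem measurableSet_Ioi).mono fun v hv => ?_
    rw [Real.norm_eq_abs, abs_of_nonneg (ww_nonneg x v)]
    exact ww_pos hx (le_of_lt hv)
  have h3 := h1.union h2
  rwa [Set.Iic_union_Ioi, integrableOn_univ] at h3

theorem ww_tail {x X : ℝ} (hx : 0 ≤ x) (hx1 : x ≤ 1 / 4) (hX : X ≤ 0) :
    ∫ v in Set.Iic X, ww x v ≤ 32 * Real.exp (-(X ^ 2 / 4)) := by
  have h1 : ∀ v ∈ Set.Iic X, ww x v ≤ 4 * Real.exp (-(X ^ 2 / 4)) * Real.exp (-(1 / 8) * v ^ 2) := by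
    intro v hv
    have hv' : v ≤ X := hv
    refine (ww_neg hx hx1 (hv'.trans hX)).trans ?_
    rw [mul_assoc, ← Real.exp_add]
    refine mul_le_mul_of_nonneg_left (Real.exp_le_exp.2 ?_) (by norm_num)
    nlinarith
  have h2 : Integrable fun v : ℝ => Real.exp (-(1 / 8) * v ^ 2) := integrable_exp_neg_mul_sq (b := 1 / 8) (by norm_num)
  calc ∫ v in Set.Iic X, ww x v ≤ ∫ v in Set.Iic X, 4 * Real.exp (-(X ^ 2 / 4)) * Real.exp (-(1 / 8) * v ^ 2) :=
        setIntegral_mono_on (ww_int hx hx1).integrableOn (h2.const_mul _).integrableOn measurableSet_Iic h1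
    _ ≤ ∫ v : ℝ, 4 * Real.exp (-(X ^ 2 / 4)) * Real.exp (-(1 / 8) * v ^ 2) :=
        setIntegral_le_integral (h2.const_mul _) (Filter.Eventually.of_forall fun t => by positivity)
    _ = 4 * Real.exp (-(X ^ 2 / 4)) * ∫ v : ℝ, Real.exp (-(1 / 8) * v ^ 2) := integral_const_mul _ _
    _ ≤ 4 * Real.exp (-(X ^ 2 / 4)) * 8 := by
        refine mul_le_mul_of_nonneg_left ?_ (by positivity)
        rw [integral_gaussian]
        have h2 := Real.pi_lt_four
        calc Real.sqrt (Real.pi / (1 / 8)) ≤ Real.sqrt (8 ^ 2) := Real.sqrt_le_sqrt (by linarith)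
          _ = 8 := Real.sqrt_sq (by norm_num)
    _ = _ := by ring


/-! ### summability -/

theorem summ {φ : ℝ → ℝ} (h0 : ∀ X, 0 ≤ φ X) {K : ℝ} (h : ∀ X, X ≤ 0 → φ X ≤ K * Real.exp (-(X ^ 2 / 4))) (L : ℝ) :
    Summable (fun n : ℕ => ((n + 1 : ℕ) : ℝ) ^ (-(1 / 2 : ℝ)) * φ (L - Real.log (n + 1 : ℕ))) := by
  have hK : 0 ≤ K := by
    have h1 := h 0 le_rfl
    have h2 := h0 0
    norm_num at h1
    linarith
  have hz : Summable fun n : ℕ => 1 / ((n : ℝ)) ^ 2 := Real.summable_one_div_nat_pow.2 (by norm_num)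
  have hz1 : Summable fun n : ℕ => K * (1 / ((n + 1 : ℕ) : ℝ) ^ 2) := ((summable_nat_add_iff 1).2 hz).mul_left _
  refine Summable.of_norm_bounded_eventually_nat hz1 ?_
  obtain ⟨L', hL'⟩ : ∃ L', L' = max L 32 := ⟨_, rfl⟩
  have hL32 : 32 ≤ L' := by rw [hL']; exact le_max_right _ _
  have hLL : L ≤ L' := by rw [hL']; exact le_max_left _ _
  have hev := (tendsto_natCast_atTop_atTop (R := ℝ)).eventually_ge_atTop (Real.exp (2 * L'))
  filter_upwards [hev] with n hn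
  have hm : Real.exp (2 * L') ≤ ((n + 1 : ℕ) : ℝ) := hn.trans (by exact_mod_cast Nat.le_succ n)
  have hm0 : (0 : ℝ) < ((n + 1 : ℕ) : ℝ) := by positivity
  have hlog : 2 * L' ≤ Real.log ((n + 1 : ℕ) : ℝ) := (Real.le_log_iff_exp_le hm0).2 hm
  have h1 := end_term hL32 hm
  have h2 := h (L - Real.log ((n + 1 : ℕ) : ℝ)) (by linarith)
  rw [Real.norm_eq_abs, abs_of_nonneg (mul_nonneg (by positivity) (h0 _))]
  have h3 : Real.exp (-((L - Real.log ((n + 1 : ℕ) : ℝ)) ^ 2 / 4)) ≤ Real.exp (-((L' - Real.log ((n + 1 : ℕ) : ℝ)) ^ 2 / 4)) := by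
    refine Real.exp_le_exp.2 ?_
    nlinarith
  calc ((n + 1 : ℕ) : ℝ) ^ (-(1 / 2 : ℝ)) * φ (L - Real.log ((n + 1 : ℕ) : ℝ))
      ≤ ((n + 1 : ℕ) : ℝ) ^ (-(1 / 2 : ℝ)) * (K * Real.exp (-((L' - Real.log ((n + 1 : ℕ) : ℝ)) ^ 2 / 4))) := by
        refine mul_le_mul_of_nonneg_left (h2.trans (mul_le_mul_of_nonneg_left h3 hK)) (by positivity)
    _ = K / 4 * (((n + 1 : ℕ) : ℝ) ^ (-(1 / 2 : ℝ)) * (4 * Real.exp (-((L' - Real.log ((n + 1 : ℕ) : ℝ)) ^ 2 / 4)))) := by ring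
    _ ≤ K / 4 * (1 / 4 * (1 / ((n + 1 : ℕ) : ℝ) ^ 2)) := mul_le_mul_of_nonneg_left h1 (by positivity)
    _ = K * (1 / ((n + 1 : ℕ) : ℝ) ^ 2) * (1 / 16) := by ring
    _ ≤ K * (1 / ((n + 1 : ℕ) : ℝ) ^ 2) * 1 := mul_le_mul_of_nonneg_left (by norm_num) (by positivity)
    _ = K * (1 / ((n + 1 : ℕ) : ℝ) ^ 2) := mul_one _

theorem half_pow (n : ℕ) : ((n + 1 : ℕ) : ℝ) ^ (-(1 / 2 : ℝ)) = Real.exp (-(Real.log ((n + 1 : ℕ) : ℝ) / 2)) := by
  rw [Real.rpow_def_of_pos (by positivity)]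
  congr 1
  ring

/-! ### the Gaussian mean as a series -/

theorem kr_shift (u c t : ℝ) : kr u (t + c) = Real.exp (-(c / 2)) * kr (u - c) t := by
  unfold kr
  rw [← mul_assoc, ← Real.exp_add]
  congr 2
  · ring
  · ring

theorem kr_ind (u c : ℝ) : ∫ t : ℝ, (Set.Ici c).indicator (kr u) t = Real.exp (-(c / 2)) * hh (u - c) := by
  rw [← integral_add_right_eq_self _ c]
  have h1 : (fun t : ℝ => (Set.Ici c).indicator (kr u) (t + c)) = (Set.Ici (0 : ℝ)).indicator fun t => Real.exp (-(c / 2)) * kr (u - c) t := by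
    funext t
    by_cases ht : 0 ≤ t
    · rw [Set.indicator_of_mem (show t ∈ Set.Ici (0 : ℝ) from ht), Set.indicator_of_mem (show t + c ∈ Set.Ici c by
        show c ≤ t + c
        linarith), kr_shift]
    · rw [Set.indicator_of_notMem (show t ∉ Set.Ici (0 : ℝ) from ht), Set.indicator_of_notMem (show t + c ∉ Set.Ici c by
        show ¬ c ≤ t + c
        intro h
        exact ht (by linarith))]
  rw [h1, integral_indicator measurableSet_Ici, integral_Ici_eq_integral_Ioi, integral_const_mul, hh_eq]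

theorem log_succ_nonneg (n : ℕ) : 0 ≤ Real.log ((n + 1 : ℕ) : ℝ) := Real.log_nonneg (by exact_mod_cast Nat.le_add_left 1 n)

theorem FF_sum (a : ℕ → ℝ) (u t : ℝ) :
    ∑' n : ℕ, a (n + 1) * (Set.Ici (Real.log ((n + 1 : ℕ) : ℝ))).indicator (kr u) t = FF a t * gk 1 (u - t) := by
  unfold FF
  split_ifs with ht
  · rw [tsum_eq_sum (s := Finset.range ⌊Real.exp t⌋₊)]
    · have h1 : mS a (Real.exp t) = ∑ n ∈ Finset.range ⌊Real.exp t⌋₊, a (n + 1) := by
        unfold mS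
        rw [Finset.range_eq_Ico, Finset.sum_Ico_add' (fun n => a n) 0 ⌊Real.exp t⌋₊ 1]
        refine Finset.sum_congr ?_ fun _ _ => rfl
        ext n
        simp only [Finset.mem_Icc, Finset.mem_Ico]
        omega
      rw [h1, Finset.mul_sum, Finset.sum_mul]
      refine Finset.sum_congr rfl fun n hn => ?_
      have h2 : ((n + 1 : ℕ) : ℝ) ≤ Real.exp t := by
        have h3 : n + 1 ≤ ⌊Real.exp t⌋₊ := Finset.mem_range.1 hn
        exact (Nat.cast_le.2 h3).trans (Nat.floor_le (Real.exp_pos t).le)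
      have h3 : Real.log ((n + 1 : ℕ) : ℝ) ≤ t := (Real.log_le_iff_le_exp (by positivity)).2 h2
      rw [Set.indicator_of_mem (show t ∈ Set.Ici (Real.log ((n + 1 : ℕ) : ℝ)) from h3)]
      unfold kr
      ring
    · intro n hn
      have h2 : Real.exp t < ((n + 1 : ℕ) : ℝ) := by
        have h3 : ⌊Real.exp t⌋₊ ≤ n := by
          rw [Finset.mem_range] at hn
          omega
        have h4 := Nat.lt_floor_add_one (Real.exp t)
        refine h4.trans_le ?_
        exact_mod_cast Nat.add_le_add_right h3 1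
      rw [Set.indicator_of_notMem, mul_zero]
      intro h3
      have h4 : Real.log ((n + 1 : ℕ) : ℝ) ≤ t := h3
      exact absurd ((Real.log_le_iff_le_exp (by positivity)).1 h4) (not_le.2 h2)
  · rw [zero_mul]
    refine (tsum_congr fun n => ?_).trans tsum_zero
    rw [Set.indicator_of_notMem, mul_zero]
    intro h3
    have h4 : Real.log ((n + 1 : ℕ) : ℝ) ≤ t := h3
    exact ht ((log_succ_nonneg n).trans h4)

theorem bb_series {a : ℕ → ℝ} (ha : ∀ n, |a n| ≤ 1) (u : ℝ) :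
    HasSum (fun n : ℕ => a (n + 1) * (Real.exp (-(Real.log ((n + 1 : ℕ) : ℝ) / 2)) * hh (u - Real.log ((n + 1 : ℕ) : ℝ)))) (bb 1 (FF a) u) := by
  have hi : ∀ c : ℝ, Integrable ((Set.Ici c).indicator (kr u)) := fun c => (kr_int u).indicator measurableSet_Ici
  have h0 : ∀ (c t : ℝ), 0 ≤ (Set.Ici c).indicator (kr u) t := fun c t => Set.indicator_nonneg (fun t _ => kr_nonneg u t) t
  have hn : ∀ n : ℕ, ∫ t : ℝ, ‖a (n + 1) * (Set.Ici (Real.log ((n + 1 : ℕ) : ℝ))).indicator (kr u) t‖ =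
      |a (n + 1)| * (Real.exp (-(Real.log ((n + 1 : ℕ) : ℝ) / 2)) * hh (u - Real.log ((n + 1 : ℕ) : ℝ))) := by
    intro n
    rw [← kr_ind, ← integral_const_mul]
    refine integral_congr_ae (Filter.Eventually.of_forall fun t => ?_)
    dsimp only
    rw [norm_mul, Real.norm_eq_abs, Real.norm_eq_abs, abs_of_nonneg (h0 _ t)]
  have hsum : Summable fun n : ℕ => ∫ t : ℝ, ‖a (n + 1) * (Set.Ici (Real.log ((n + 1 : ℕ) : ℝ))).indicator (kr u) t‖ := by
    have h1 := summ hh_nonneg (K := 2) (fun X hX => (hh_neg hX).trans (by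
      refine mul_le_mul_of_nonneg_left (Real.exp_le_exp.2 ?_) (by norm_num)
      nlinarith [sq_nonneg X])) u
    refine Summable.of_nonneg_of_le (fun n => integral_nonneg fun t => norm_nonneg _) (fun n => ?_) h1
    rw [hn n, half_pow]
    exact mul_le_of_le_one_left (mul_nonneg (Real.exp_pos _).le (hh_nonneg _)) (ha _)
  have h2 := hasSum_integral_of_summable_integral_norm
    (F := fun (n : ℕ) (t : ℝ) => a (n + 1) * (Set.Ici (Real.log ((n + 1 : ℕ) : ℝ))).indicator (kr u) t) (μ := volume)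
    (fun n => (hi _).const_mul _) hsum
  have h3 : (∫ t : ℝ, ∑' n : ℕ, a (n + 1) * (Set.Ici (Real.log ((n + 1 : ℕ) : ℝ))).indicator (kr u) t) = bb 1 (FF a) u := by
    unfold bb
    refine integral_congr_ae (Filter.Eventually.of_forall fun t => ?_)
    exact FF_sum a u t
  rw [h3] at h2
  refine h2.congr_fun fun n => ?_
  rw [integral_const_mul, kr_ind]

/-! ### the transform -/

theorem norm_term (z : ℂ) (v : ℝ) : ‖(hh v : ℂ) * Complex.exp (-(z * v))‖ = ww z.re v := by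
  rw [norm_mul, Complex.norm_real, Real.norm_eq_abs, abs_of_nonneg (hh_nonneg v), Complex.norm_exp]
  unfold ww
  congr 2
  simp

theorem Hh_int {z : ℂ} (hz : 0 ≤ z.re) (hz1 : z.re ≤ 1 / 4) : Integrable fun v : ℝ => (hh v : ℂ) * Complex.exp (-(z * v)) := by
  refine (ww_int hz hz1).mono' ?_ (Filter.Eventually.of_forall fun v => (norm_term z v).le)
  refine (Complex.continuous_ofReal.comp_stronglyMeasurable hh_meas).aestronglyMeasurable.mul ?_
  exact (by fun_prop : Continuous fun v : ℝ => Complex.exp (-(z * v))).aestronglyMeasurable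

theorem set_shift {E : Type} [NormedAddCommGroup E] [NormedSpace ℝ E] (f : ℝ → E) (L c : ℝ) :
    ∫ u in Set.Iic L, f (u - c) = ∫ v in Set.Iic (L - c), f v := by
  rw [← integral_indicator measurableSet_Iic, ← integral_indicator measurableSet_Iic, ← integral_add_right_eq_self _ c]
  refine integral_congr_ae (Filter.Eventually.of_forall fun t => ?_)
  dsimp only
  by_cases ht : t ≤ L - c
  · rw [Set.indicator_of_mem (show t ∈ Set.Iic (L - c) from ht), Set.indicator_of_mem (show t + c ∈ Set.Iic L by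
      show t + c ≤ L
      linarith), add_sub_cancel_right]
  · rw [Set.indicator_of_notMem (show t ∉ Set.Iic (L - c) from ht), Set.indicator_of_notMem (show t + c ∉ Set.Iic L by
      show ¬ t + c ≤ L
      intro h
      exact ht (by linarith))]

theorem cpow_split (z : ℂ) (n : ℕ) : (((n + 1 : ℕ) : ℂ)) ^ (-(1 / 2 + z)) =
    ((Real.exp (-(Real.log ((n + 1 : ℕ) : ℝ) / 2)) : ℝ) : ℂ) * Complex.exp (-(z * (Real.log ((n + 1 : ℕ) : ℝ) : ℝ))) := by
  rw [Complex.cpow_def_of_ne_zero (by exact_mod_cast Nat.succ_ne_zero n), ← Complex.natCast_log, Complex.ofReal_exp, ← Complex.exp_add]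
  congr 1
  push_cast
  ring

/-- C2: the functional as a Dirichlet series -/
theorem series {a : ℕ → ℝ} (ha : ∀ n, |a n| ≤ 1) {z : ℂ} (hz : 0 < z.re) (hz1 : z.re ≤ 1 / 4) (L : ℝ) :
    HasSum (fun n : ℕ => (a (n + 1) : ℂ) * (((n + 1 : ℕ) : ℂ) ^ (-(1 / 2 + z)) * Hh z (L - Real.log (n + 1 : ℕ)))) (TT a L z) := by
  -- one term
  have hterm : ∀ (n : ℕ) (u : ℝ), ((a (n + 1) * (Real.exp (-(Real.log ((n + 1 : ℕ) : ℝ) / 2)) * hh (u - Real.log ((n + 1 : ℕ) : ℝ))) : ℝ) : ℂ) *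
      Complex.exp (-(z * u)) = ((a (n + 1) : ℂ) * ((n + 1 : ℕ) : ℂ) ^ (-(1 / 2 + z))) *
        (((hh (u - Real.log ((n + 1 : ℕ) : ℝ)) : ℝ) : ℂ) * Complex.exp (-(z * ((u - Real.log ((n + 1 : ℕ) : ℝ) : ℝ) : ℂ)))) := by
    intro n u
    have h1 : Complex.exp (-(z * u)) = Complex.exp (-(z * (Real.log ((n + 1 : ℕ) : ℝ) : ℝ))) *
        Complex.exp (-(z * ((u - Real.log ((n + 1 : ℕ) : ℝ) : ℝ) : ℂ))) := by
      rw [← Complex.exp_add]
      congr 1
      push_cast
      ring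
    rw [cpow_split, h1]
    push_cast
    ring
  have hcn : ∀ n : ℕ, ‖(a (n + 1) : ℂ) * ((n + 1 : ℕ) : ℂ) ^ (-(1 / 2 + z))‖ ≤ ((n + 1 : ℕ) : ℝ) ^ (-(1 / 2 : ℝ)) := by
    intro n
    rw [norm_mul, Complex.norm_real, Real.norm_eq_abs, cpow_split, norm_mul, Complex.norm_real, Real.norm_eq_abs,
      abs_of_pos (Real.exp_pos _), Complex.norm_exp, half_pow]
    have h1 : Real.exp (-(z * (Real.log ((n + 1 : ℕ) : ℝ) : ℝ))).re ≤ 1 := by
      refine Real.exp_le_one_iff.2 ?_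
      simp only [Complex.neg_re, Complex.mul_re, Complex.ofReal_re, Complex.ofReal_im, mul_zero, sub_zero]
      have := mul_nonneg hz.le (log_succ_nonneg n)
      linarith
    have h2 := Real.exp_pos (-(Real.log ((n + 1 : ℕ) : ℝ) / 2))
    calc |a (n + 1)| * (Real.exp (-(Real.log ((n + 1 : ℕ) : ℝ) / 2)) * Real.exp (-(z * (Real.log ((n + 1 : ℕ) : ℝ) : ℝ))).re)
        ≤ 1 * (Real.exp (-(Real.log ((n + 1 : ℕ) : ℝ) / 2)) * 1) := by
          refine mul_le_mul (ha _) (mul_le_mul_of_nonneg_left h1 h2.le) (mul_nonneg h2.le (Real.exp_pos _).le) zero_le_one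
      _ = _ := by ring
  have hint : Integrable fun v : ℝ => (hh v : ℂ) * Complex.exp (-(z * v)) := Hh_int hz.le hz1
  have hnorm : ∀ n : ℕ, (∫ u in Set.Iic L, ‖((a (n + 1) * (Real.exp (-(Real.log ((n + 1 : ℕ) : ℝ) / 2)) *
      hh (u - Real.log ((n + 1 : ℕ) : ℝ))) : ℝ) : ℂ) * Complex.exp (-(z * u))‖) =
      ‖(a (n + 1) : ℂ) * ((n + 1 : ℕ) : ℂ) ^ (-(1 / 2 + z))‖ * ∫ v in Set.Iic (L - Real.log ((n + 1 : ℕ) : ℝ)), ww z.re v := by
    intro n
    rw [← set_shift, ← integral_const_mul]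
    refine integral_congr_ae (Filter.Eventually.of_forall fun u => ?_)
    dsimp only
    rw [hterm, norm_mul, norm_term]
  have hsum : Summable fun n : ℕ => ∫ u in Set.Iic L, ‖((a (n + 1) * (Real.exp (-(Real.log ((n + 1 : ℕ) : ℝ) / 2)) *
      hh (u - Real.log ((n + 1 : ℕ) : ℝ))) : ℝ) : ℂ) * Complex.exp (-(z * u))‖ := by
    have h1 := summ (φ := fun X => ∫ v in Set.Iic X, ww z.re v) (fun X => integral_nonneg fun v => ww_nonneg _ v) (K := 32)
      (fun X hX => ww_tail hz.le hz1 hX) L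
    refine Summable.of_nonneg_of_le (fun n => integral_nonneg fun t => norm_nonneg _) (fun n => ?_) h1
    rw [hnorm n]
    exact mul_le_mul_of_nonneg_right (hcn n) (integral_nonneg fun v => ww_nonneg _ v)
  have h2 := hasSum_integral_of_summable_integral_norm
    (F := fun (n : ℕ) (u : ℝ) => ((a (n + 1) * (Real.exp (-(Real.log ((n + 1 : ℕ) : ℝ) / 2)) *
      hh (u - Real.log ((n + 1 : ℕ) : ℝ))) : ℝ) : ℂ) * Complex.exp (-(z * u))) (μ := volume.restrict (Set.Iic L))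
    (fun n => by
      have h3 : (fun u : ℝ => ((a (n + 1) * (Real.exp (-(Real.log ((n + 1 : ℕ) : ℝ) / 2)) *
          hh (u - Real.log ((n + 1 : ℕ) : ℝ))) : ℝ) : ℂ) * Complex.exp (-(z * u))) = fun u : ℝ =>
          ((a (n + 1) : ℂ) * ((n + 1 : ℕ) : ℂ) ^ (-(1 / 2 + z))) *
          ((fun v : ℝ => (hh v : ℂ) * Complex.exp (-(z * v))) (u - Real.log ((n + 1 : ℕ) : ℝ))) := funext fun u => hterm n u
      rw [h3]
      exact ((hint.comp_sub_right _).const_mul _).integrableOn) hsum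
  have h4 : (∫ u in Set.Iic L, ∑' n : ℕ, ((a (n + 1) * (Real.exp (-(Real.log ((n + 1 : ℕ) : ℝ) / 2)) *
      hh (u - Real.log ((n + 1 : ℕ) : ℝ))) : ℝ) : ℂ) * Complex.exp (-(z * u))) = TT a L z := by
    unfold TT
    refine integral_congr_ae (Filter.Eventually.of_forall fun u => ?_)
    exact ((Complex.hasSum_ofReal.2 (bb_series ha u)).mul_right _).tsum_eq
  rw [h4] at h2
  refine h2.congr_fun fun n => ?_
  have h5 : (∫ u in Set.Iic L, ((a (n + 1) * (Real.exp (-(Real.log ((n + 1 : ℕ) : ℝ) / 2)) *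
      hh (u - Real.log ((n + 1 : ℕ) : ℝ))) : ℝ) : ℂ) * Complex.exp (-(z * u))) =
      ((a (n + 1) : ℂ) * ((n + 1 : ℕ) : ℂ) ^ (-(1 / 2 + z))) * Hh z (L - Real.log ((n + 1 : ℕ) : ℝ)) := by
    unfold Hh
    rw [← set_shift, ← integral_const_mul]
    exact integral_congr_ae (Filter.Eventually.of_forall fun u => hterm n u)
  rw [h5, mul_assoc]

end Pool.Agent.Helper19.LV
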