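import Pool.Agent.Helper19.LV.C2

/-!
# Project LV (MP_a499ba_nt), block C3: the weight
-/

set_option autoImplicit false

namespace Pool.Agent.Helper19.LV

open Finset MeasureTheory Filter Topology
open Pool.Agent.QT (mS FF gk bb)
open Pool.Agent.Helper11.LV (hh Hh TT gz)

/-! ### the constants -/

theorem exp_half_sq {x : ℝ} (hx : |x| ≤ 1 / 32) : 31 / 32 ≤ Real.exp x ∧ Real.exp x ≤ 32 / 31 := by
  obtain ⟨h1, h2⟩ := abs_le.1 hx
  refine ⟨by linarith [Real.add_one_le_exp x], ?_⟩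
  have h3 : Real.exp x ≤ Real.exp (1 / 32) := Real.exp_le_exp.2 h2
  have h4 := Real.exp_bound_div_one_sub_of_interval (x := 1 / 32) (by norm_num) (by norm_num)
  refine (h3.trans h4).trans ?_
  norm_num

theorem norm_exp_sq {z : ℂ} (hz1 : ‖z‖ ≤ 1 / 4) : 31 / 32 ≤ ‖Complex.exp (z ^ 2 / 2)‖ ∧ ‖Complex.exp (z ^ 2 / 2)‖ ≤ 32 / 31 := by
  rw [Complex.norm_exp]
  apply exp_half_sq
  refine (Complex.abs_re_le_norm _).trans ?_
  rw [norm_div, norm_pow]
  have h1 : ‖z‖ ^ 2 ≤ (1 / 4) ^ 2 := pow_le_pow_left₀ (norm_nonneg _) hz1 2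
  have h2 : ‖(2 : ℂ)‖ = 2 := by norm_num
  rw [h2]
  linarith

theorem gz_ge {z : ℂ} (hz : 0 < z.re) (hz1 : ‖z‖ ≤ 1 / 4) : 1 / 2 ≤ ‖gz z‖ := by
  unfold gz
  have h1 := (norm_exp_sq hz1).1
  have h2 : ‖(1 / 2 + z : ℂ)‖ ≤ 3 / 4 := by
    refine (norm_add_le _ _).trans ?_
    have : ‖(1 / 2 : ℂ)‖ = 1 / 2 := by norm_num
    rw [this]
    linarith
  have h3 : 0 < ‖(1 / 2 + z : ℂ)‖ := by
    rw [norm_pos_iff]
    intro h
    have := congrArg Complex.re h
    norm_num at this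
    linarith
  rw [norm_div, le_div_iff₀ h3]
  linarith

theorem gz_le' {z : ℂ} (hz : 0 ≤ z.re) (hz1 : ‖z‖ ≤ 1 / 4) : ‖gz z‖ ≤ 4 := by
  unfold gz
  have h1 := (norm_exp_sq hz1).2
  have h2 : 1 / 2 ≤ ‖(1 / 2 + z : ℂ)‖ := by
    refine le_trans ?_ (Complex.re_le_norm _)
    norm_num
    linarith
  rw [norm_div, div_le_iff₀ (by linarith)]
  linarith

theorem gz_le {z : ℂ} (hz : 0 < z.re) (hz1 : ‖z‖ ≤ 1 / 4) : ‖gz z‖ ≤ 4 := gz_le' hz.le hz1

/-! ### the transforms -/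

theorem gk_tr_int (z : ℂ) : Integrable fun w : ℝ => (gk 1 w : ℂ) * Complex.exp (-(z * w)) := by
  have h1 := integrable_cexp_quadratic' (b := -(1 / 2)) (by norm_num) (-z) 0
  refine (h1.const_mul (((Real.sqrt (2 * Real.pi))⁻¹ : ℝ) : ℂ)).congr (Filter.Eventually.of_forall fun w => ?_)
  dsimp only
  rw [gk_one, Complex.ofReal_mul, mul_assoc, Complex.ofReal_exp, ← Complex.exp_add]
  congr 2
  push_cast
  ring

theorem gk_tr (z : ℂ) : ∫ w : ℝ, (gk 1 w : ℂ) * Complex.exp (-(z * w)) = Complex.exp (z ^ 2 / 2) := by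
  have h1 := integral_cexp_quadratic (b := -(1 / 2)) (by norm_num) (-z) 0
  have h2 : (fun w : ℝ => (gk 1 w : ℂ) * Complex.exp (-(z * w))) = fun w : ℝ => (((Real.sqrt (2 * Real.pi))⁻¹ : ℝ) : ℂ) *
      Complex.exp (-(1 / 2) * (w : ℂ) ^ 2 + -z * w + 0) := by
    funext w
    rw [gk_one, Complex.ofReal_mul, mul_assoc, Complex.ofReal_exp, ← Complex.exp_add]
    congr 2
    push_cast
    ring
  rw [h2, integral_const_mul, h1]
  have h3 : ((Real.pi : ℂ) / -(-(1 / 2))) ^ (1 / 2 : ℂ) = ((Real.sqrt (2 * Real.pi) : ℝ) : ℂ) := by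
    have h4 : ((Real.pi : ℂ) / -(-(1 / 2))) = ((2 * Real.pi : ℝ) : ℂ) := by
      push_cast
      ring
    rw [h4, Real.sqrt_eq_rpow, Complex.ofReal_cpow (by positivity)]
    norm_num
  rw [h3, ← mul_assoc, ← Complex.ofReal_mul, inv_mul_cancel₀ (by positivity), Complex.ofReal_one, one_mul]
  congr 1
  ring

theorem ex_int {z : ℂ} (hz : 0 ≤ z.re) : Integrable (Set.indicator (Set.Ioi (0 : ℝ)) fun t : ℝ => Complex.exp (-(1 / 2 + z) * t)) := by
  rw [integrable_indicator_iff measurableSet_Ioi]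
  exact integrableOn_exp_mul_complex_Ioi (by norm_num; linarith) 0

theorem ex_val {z : ℂ} (hz : 0 ≤ z.re) : ∫ t : ℝ, Set.indicator (Set.Ioi (0 : ℝ)) (fun t : ℝ => Complex.exp (-(1 / 2 + z) * t)) t = 1 / (1 / 2 + z) := by
  rw [integral_indicator measurableSet_Ioi, integral_exp_mul_complex_Ioi (by norm_num; linarith)]
  have h : (1 / 2 + z : ℂ) ≠ 0 := by
    intro h
    have := congrArg Complex.re h
    norm_num at this
    linarith
  rw [Complex.ofReal_zero, mul_zero, Complex.exp_zero]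
  field_simp

theorem hh_conv {z : ℂ} (v : ℝ) : (hh v : ℂ) * Complex.exp (-(z * v)) =
    ∫ t : ℝ, Set.indicator (Set.Ioi (0 : ℝ)) (fun t : ℝ => Complex.exp (-(1 / 2 + z) * t)) t *
      ((gk 1 (v - t) : ℂ) * Complex.exp (-(z * ((v - t : ℝ) : ℂ)))) := by
  rw [hh_eq, ← integral_complex_ofReal, ← integral_mul_const, ← integral_indicator measurableSet_Ioi]
  refine integral_congr_ae (Filter.Eventually.of_forall fun t => ?_)
  dsimp only
  by_cases ht : t ∈ Set.Ioi (0 : ℝ)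
  · rw [Set.indicator_of_mem ht, Set.indicator_of_mem ht]
    unfold kr
    rw [Complex.ofReal_mul, Complex.ofReal_exp]
    have h1 : Complex.exp (((-(t / 2) : ℝ) : ℂ)) * Complex.exp (-(z * v)) =
        Complex.exp (-(1 / 2 + z) * t) * Complex.exp (-(z * ((v - t : ℝ) : ℂ))) := by
      rw [← Complex.exp_add, ← Complex.exp_add]
      congr 1
      push_cast
      ring
    calc Complex.exp (((-(t / 2) : ℝ) : ℂ)) * (gk 1 (v - t) : ℂ) * Complex.exp (-(z * v)) =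
        (gk 1 (v - t) : ℂ) * (Complex.exp (((-(t / 2) : ℝ) : ℂ)) * Complex.exp (-(z * v))) := by ring
      _ = _ := by rw [h1]; ring
  · rw [Set.indicator_of_notMem ht, Set.indicator_of_notMem ht, zero_mul]

theorem hh_tr {z : ℂ} (hz : 0 ≤ z.re) : ∫ v : ℝ, (hh v : ℂ) * Complex.exp (-(z * v)) = gz z := by
  have h1 := integral_convolution (μ := volume) (ν := volume) (ContinuousLinearMap.mul ℝ ℂ) (ex_int hz) (gk_tr_int z)
  rw [ex_val hz, gk_tr] at h1
  unfold gz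
  rw [ContinuousLinearMap.mul_apply', div_mul_eq_mul_div, one_mul] at h1
  rw [← h1]
  refine integral_congr_ae (Filter.Eventually.of_forall fun v => ?_)
  dsimp only
  rw [hh_conv]
  rfl

theorem ww_total {x : ℝ} (hx : 0 ≤ x) (hx1 : x ≤ 1 / 4) : ∫ v : ℝ, ww x v ≤ 4 := by
  have h1 := hh_tr (z := (x : ℂ)) (by simpa using hx)
  have h2 : (∫ v : ℝ, (hh v : ℂ) * Complex.exp (-((x : ℂ) * v))) = ((∫ v : ℝ, ww x v : ℝ) : ℂ) := by
    rw [← integral_complex_ofReal]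
    refine integral_congr_ae (Filter.Eventually.of_forall fun v => ?_)
    dsimp only
    unfold ww
    push_cast
    rfl
  rw [h2] at h1
  have h3 := gz_le' (z := (x : ℂ)) (by simpa using hx) (by
    rw [Complex.norm_real, Real.norm_eq_abs, abs_of_nonneg hx]
    exact hx1)
  rw [← h1, Complex.norm_real, Real.norm_eq_abs] at h3
  exact (le_abs_self _).trans h3

theorem norm_Hh_le {z : ℂ} (hz : 0 ≤ z.re) (hz1 : z.re ≤ 1 / 4) (x : ℝ) : ‖Hh z x‖ ≤ ∫ v in Set.Iic x, ww z.re v := by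
  unfold Hh
  refine (norm_integral_le_integral_norm _).trans (le_of_eq ?_)
  exact integral_congr_ae (Filter.Eventually.of_forall fun v => norm_term z v)

theorem Hh_le {z : ℂ} (hz : 0 < z.re) (hz1 : z.re ≤ 1 / 4) (x : ℝ) : ‖Hh z x‖ ≤ 4 :=
  ((norm_Hh_le hz.le hz1 x).trans (setIntegral_le_integral (ww_int hz.le hz1) (Filter.Eventually.of_forall fun v => ww_nonneg _ v))).trans
    (ww_total hz.le hz1)

/-! ### the tail on the left -/

theorem hh_neg2 {v : ℝ} (hv : v ≤ 0) : hh v ≤ 4 / 5 * Real.exp (-(v ^ 2 / 2)) := by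
  rw [hh_eq]
  have hc : (Real.sqrt (2 * Real.pi))⁻¹ ≤ 2 / 5 := by
    have h1 : (5 / 2 : ℝ) ≤ Real.sqrt (2 * Real.pi) := by
      refine Real.le_sqrt_of_sq_le ?_
      have := Real.pi_gt_d2
      linarith
    calc (Real.sqrt (2 * Real.pi))⁻¹ ≤ (5 / 2 : ℝ)⁻¹ := inv_anti₀ (by norm_num) h1
      _ = 2 / 5 := by norm_num
  have h1 : ∀ t ∈ Set.Ioi (0 : ℝ), kr v t ≤ 2 / 5 * Real.exp (-(v ^ 2 / 2)) * Real.exp (-(1 / 2) * t) := by
    intro t ht
    have ht0 : 0 < t := ht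
    unfold kr
    rw [gk_one]
    calc Real.exp (-(t / 2)) * ((Real.sqrt (2 * Real.pi))⁻¹ * Real.exp (-((v - t) ^ 2 / 2)))
        = (Real.sqrt (2 * Real.pi))⁻¹ * (Real.exp (-(t / 2)) * Real.exp (-((v - t) ^ 2 / 2))) := by ring
      _ ≤ 2 / 5 * (Real.exp (-(v ^ 2 / 2)) * Real.exp (-(1 / 2) * t)) := by
          refine mul_le_mul hc ?_ (by positivity) (by norm_num)
          rw [← Real.exp_add, ← Real.exp_add]
          refine Real.exp_le_exp.2 ?_
          nlinarith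
      _ = _ := by ring
  have h2 : IntegrableOn (fun t : ℝ => Real.exp (-(1 / 2) * t)) (Set.Ioi 0) := integrableOn_exp_mul_Ioi (by norm_num) 0
  calc ∫ t in Set.Ioi (0 : ℝ), kr v t ≤ ∫ t in Set.Ioi (0 : ℝ), 2 / 5 * Real.exp (-(v ^ 2 / 2)) * Real.exp (-(1 / 2) * t) :=
        setIntegral_mono_on (kr_int v).integrableOn (h2.const_mul _) measurableSet_Ioi h1
    _ = 2 / 5 * Real.exp (-(v ^ 2 / 2)) * ∫ t in Set.Ioi (0 : ℝ), Real.exp (-(1 / 2) * t) := integral_const_mul _ _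
    _ = 4 / 5 * Real.exp (-(v ^ 2 / 2)) := by
        rw [integral_exp_mul_Ioi (by norm_num)]
        norm_num
        ring

theorem gau4 : ∫ v : ℝ, Real.exp (-(1 / 4) * (v + 1 / 2) ^ 2) ≤ 4 := by
  rw [integral_add_right_eq_self (fun v : ℝ => Real.exp (-(1 / 4) * v ^ 2)) (1 / 2), integral_gaussian]
  have h2 := Real.pi_lt_four
  calc Real.sqrt (Real.pi / (1 / 4)) ≤ Real.sqrt (4 ^ 2) := Real.sqrt_le_sqrt (by linarith)
    _ = 4 := Real.sqrt_sq (by norm_num)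

theorem Hh_tail {z : ℂ} (hz : 0 < z.re) (hz1 : z.re ≤ 1 / 4) {x : ℝ} (hx : x ≤ 0) : ‖Hh z x‖ ≤ 4 * Real.exp (-(x ^ 2 / 4)) := by
  refine (norm_Hh_le hz.le hz1 x).trans ?_
  have h0 : Real.exp (1 / 16) ≤ 16 / 15 := by
    have h := Real.exp_bound_div_one_sub_of_interval (x := 1 / 16) (by norm_num) (by norm_num)
    refine h.trans ?_
    norm_num
  have h1 : ∀ v ∈ Set.Iic x, ww z.re v ≤ 4 / 5 * (16 / 15) * Real.exp (-(x ^ 2 / 4)) * Real.exp (-(1 / 4) * (v + 1 / 2) ^ 2) := by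
    intro v hv
    have hv' : v ≤ x := hv
    have hv0 : v ≤ 0 := hv'.trans hx
    unfold ww
    calc hh v * Real.exp (-(z.re * v)) ≤ 4 / 5 * Real.exp (-(v ^ 2 / 2)) * Real.exp (-(z.re * v)) :=
          mul_le_mul_of_nonneg_right (hh_neg2 hv0) (Real.exp_pos _).le
      _ = 4 / 5 * Real.exp (-(v ^ 2 / 2) + -(z.re * v)) := by rw [mul_assoc, ← Real.exp_add]
      _ ≤ 4 / 5 * Real.exp (1 / 16 + (-(x ^ 2 / 4) + -(1 / 4) * (v + 1 / 2) ^ 2)) := by
          refine mul_le_mul_of_nonneg_left (Real.exp_le_exp.2 ?_) (by norm_num)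
          have h2 : -(z.re * v) ≤ -(1 / 4 * v) := by nlinarith
          nlinarith
      _ = 4 / 5 * (Real.exp (1 / 16) * (Real.exp (-(x ^ 2 / 4)) * Real.exp (-(1 / 4) * (v + 1 / 2) ^ 2))) := by
          rw [← Real.exp_add, ← Real.exp_add]
      _ ≤ 4 / 5 * (16 / 15 * (Real.exp (-(x ^ 2 / 4)) * Real.exp (-(1 / 4) * (v + 1 / 2) ^ 2))) := by gcongr
      _ = _ := by ring
  have h2 : Integrable fun v : ℝ => Real.exp (-(1 / 4) * (v + 1 / 2) ^ 2) :=
    (integrable_exp_neg_mul_sq (b := 1 / 4) (by norm_num)).comp_add_right (1 / 2)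
  calc ∫ v in Set.Iic x, ww z.re v ≤ ∫ v in Set.Iic x, 4 / 5 * (16 / 15) * Real.exp (-(x ^ 2 / 4)) * Real.exp (-(1 / 4) * (v + 1 / 2) ^ 2) :=
        setIntegral_mono_on (ww_int hz.le hz1).integrableOn (h2.const_mul _).integrableOn measurableSet_Iic h1
    _ ≤ ∫ v : ℝ, 4 / 5 * (16 / 15) * Real.exp (-(x ^ 2 / 4)) * Real.exp (-(1 / 4) * (v + 1 / 2) ^ 2) :=
        setIntegral_le_integral (h2.const_mul _) (Filter.Eventually.of_forall fun t => by positivity)
    _ = 4 / 5 * (16 / 15) * Real.exp (-(x ^ 2 / 4)) * ∫ v : ℝ, Real.exp (-(1 / 4) * (v + 1 / 2) ^ 2) := integral_const_mul _ _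
    _ ≤ 4 / 5 * (16 / 15) * Real.exp (-(x ^ 2 / 4)) * 4 := mul_le_mul_of_nonneg_left gau4 (by positivity)
    _ = 256 / 75 * Real.exp (-(x ^ 2 / 4)) := by ring
    _ ≤ 4 * Real.exp (-(x ^ 2 / 4)) := by gcongr; norm_num

/-! ### near the full transform -/

theorem hh_up (v : ℝ) : hh v ≤ Real.exp (1 / 8) * Real.exp (-(1 / 2) * v) := by
  rw [hh_eq]
  have h1 : ∀ t : ℝ, kr v t = Real.exp (1 / 8) * Real.exp (-(1 / 2) * v) * ((Real.sqrt (2 * Real.pi))⁻¹ * Real.exp (-(1 / 2) * (v - 1 / 2 - t) ^ 2)) := by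
    intro t
    unfold kr
    rw [gk_one]
    calc Real.exp (-(t / 2)) * ((Real.sqrt (2 * Real.pi))⁻¹ * Real.exp (-((v - t) ^ 2 / 2)))
        = (Real.sqrt (2 * Real.pi))⁻¹ * (Real.exp (-(t / 2)) * Real.exp (-((v - t) ^ 2 / 2))) := by ring
      _ = (Real.sqrt (2 * Real.pi))⁻¹ * (Real.exp (1 / 8) * Real.exp (-(1 / 2) * v) * Real.exp (-(1 / 2) * (v - 1 / 2 - t) ^ 2)) := by
          rw [← Real.exp_add, ← Real.exp_add, ← Real.exp_add]
          congr 2
          ring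
      _ = _ := by ring
  calc ∫ t in Set.Ioi (0 : ℝ), kr v t ≤ ∫ t : ℝ, kr v t :=
        setIntegral_le_integral (kr_int v) (Filter.Eventually.of_forall fun t => kr_nonneg v t)
    _ = Real.exp (1 / 8) * Real.exp (-(1 / 2) * v) * ((Real.sqrt (2 * Real.pi))⁻¹ * ∫ t : ℝ, Real.exp (-(1 / 2) * (v - 1 / 2 - t) ^ 2)) := by
        rw [← integral_const_mul, ← integral_const_mul]
        exact integral_congr_ae (Filter.Eventually.of_forall h1)
    _ = Real.exp (1 / 8) * Real.exp (-(1 / 2) * v) * 1 := by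
        congr 1
        rw [integral_sub_left_eq_self (fun t : ℝ => Real.exp (-(1 / 2) * t ^ 2)) volume (v - 1 / 2), integral_gaussian]
        have : Real.pi / (1 / 2) = 2 * Real.pi := by ring
        rw [this]
        exact inv_mul_cancel₀ (by positivity)
    _ = _ := mul_one _

theorem Hh_near {z : ℂ} (hz : 0 < z.re) (hz1 : z.re ≤ 1 / 4) {d : ℝ} (hd : 0 < d) (hd1 : d ≤ 1 / 4) (L : ℝ) (n : ℕ) (hn : 1 ≤ n) :
    ‖Hh z (L - Real.log n) - gz z‖ ≤ 4 * ((n : ℝ) / Real.exp L) ^ (d / 2) := by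
  have hn0 : (0 : ℝ) < n := by exact_mod_cast hn
  obtain ⟨X, hX⟩ : ∃ X, X = L - Real.log n := ⟨_, rfl⟩
  rw [← hX]
  have hb : ((n : ℝ) / Real.exp L) ^ (d / 2) = Real.exp (-(X * (d / 2))) := by
    have h1 : (n : ℝ) / Real.exp L = Real.exp (-X) := by
      rw [hX, neg_sub, Real.exp_sub, Real.exp_log hn0]
    rw [h1, ← Real.exp_mul]
    congr 1
    ring
  rw [hb]
  have hint := Hh_int (z := z) hz.le hz1
  have h2 : Hh z X - gz z = -∫ v in Set.Ioi X, (hh v : ℂ) * Complex.exp (-(z * v)) := by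
    rw [← hh_tr hz.le, ← integral_add_compl (measurableSet_Iic (a := X)) hint, Set.compl_Iic]
    unfold Hh
    ring
  rw [h2, norm_neg]
  have h3 : ‖∫ v in Set.Ioi X, (hh v : ℂ) * Complex.exp (-(z * v))‖ ≤ ∫ v in Set.Ioi X, ww z.re v := by
    refine (norm_integral_le_integral_norm _).trans (le_of_eq ?_)
    exact integral_congr_ae (Filter.Eventually.of_forall fun v => norm_term z v)
  refine h3.trans ?_
  rcases le_or_gt X 0 with hX0 | hX0
  · have h4 : (1 : ℝ) ≤ Real.exp (-(X * (d / 2))) := Real.one_le_exp (by nlinarith)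
    have h5 : ∫ v in Set.Ioi X, ww z.re v ≤ 4 :=
      (setIntegral_le_integral (ww_int hz.le hz1) (Filter.Eventually.of_forall fun v => ww_nonneg _ v)).trans (ww_total hz.le hz1)
    linarith
  · have h6 : ∀ v ∈ Set.Ioi X, ww z.re v ≤ Real.exp (1 / 8) * Real.exp (-(1 / 2) * v) := by
      intro v hv
      have hv0 : X < v := hv
      unfold ww
      have h7 : Real.exp (-(z.re * v)) ≤ 1 := Real.exp_le_one_iff.2 (by nlinarith)
      calc hh v * Real.exp (-(z.re * v)) ≤ hh v * 1 := mul_le_mul_of_nonneg_left h7 (hh_nonneg v)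
        _ ≤ _ := by rw [mul_one]; exact hh_up v
    have h8 : IntegrableOn (fun t : ℝ => Real.exp (-(1 / 2) * t)) (Set.Ioi X) := integrableOn_exp_mul_Ioi (by norm_num) X
    calc ∫ v in Set.Ioi X, ww z.re v ≤ ∫ v in Set.Ioi X, Real.exp (1 / 8) * Real.exp (-(1 / 2) * v) :=
          setIntegral_mono_on (ww_int hz.le hz1).integrableOn (h8.const_mul _) measurableSet_Ioi h6
      _ = Real.exp (1 / 8) * ∫ v in Set.Ioi X, Real.exp (-(1 / 2) * v) := integral_const_mul _ _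
      _ = Real.exp (1 / 8) * 2 * Real.exp (-(1 / 2) * X) := by
          rw [integral_exp_mul_Ioi (by norm_num)]
          ring
      _ ≤ 4 * Real.exp (-(X * (d / 2))) := by
          have h9 : Real.exp (1 / 8) ≤ 2 := by
            have h := Real.exp_bound_div_one_sub_of_interval (x := 1 / 8) (by norm_num) (by norm_num)
            refine h.trans ?_
            norm_num
          have h10 : Real.exp (-(1 / 2) * X) ≤ Real.exp (-(X * (d / 2))) := Real.exp_le_exp.2 (by nlinarith)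
          have h11 := Real.exp_pos (-(1 / 2) * X)
          calc Real.exp (1 / 8) * 2 * Real.exp (-(1 / 2) * X) ≤ 2 * 2 * Real.exp (-(X * (d / 2))) := by gcongr
            _ = _ := by ring

end Pool.Agent.Helper19.LV
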